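import Pool.Agent.H773.LK.Spec

set_option autoImplicit false

noncomputable section

namespace Pool.Agent.H106.LK

open MeasureTheory Filter Topology Set
open scoped ENNReal NNReal ComplexConjugate InnerProductSpace
open Pool.Agent.H773.LK

/-! ### The principal square root -/

theorem csq_sq (w : ℂ) : csq w ^ 2 = w := by
  unfold csq
  have h := Complex.cpow_nat_inv_pow w (n := 2) (by norm_num)
  rw [show ((1 / 2 : ℂ)) = (((2 : ℕ) : ℂ))⁻¹ by norm_num]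
  exact h

theorem csq_exp {w : ℂ} (hw : w ≠ 0) : csq w = Complex.exp (Complex.log w * (1 / 2)) := by
  unfold csq
  rw [Complex.cpow_def_of_ne_zero hw]

theorem csq_norm_sq (w : ℂ) : ‖csq w‖ ^ 2 = ‖w‖ := by
  rw [← norm_pow, csq_sq]

theorem csq_re_pos {w : ℂ} (hw : 0 < w.re) : 0 < (csq w).re := by
  have hw0 : w ≠ 0 := by
    intro h
    rw [h] at hw
    simp at hw
  rw [csq_exp hw0, Complex.exp_re]
  refine mul_pos (Real.exp_pos _) ?_
  have h1 : (Complex.log w * (1 / 2)).im = Complex.arg w / 2 := by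
    rw [show (Complex.log w * (1 / 2)) = Complex.log w * (((1 / 2 : ℝ)) : ℂ) by push_cast; ring,
      Complex.im_mul_ofReal, Complex.log_im]
    ring
  rw [h1]
  have h2 := Complex.abs_arg_lt_pi_div_two_iff.2 (Or.inl hw)
  rw [abs_lt] at h2
  refine Real.cos_pos_of_mem_Ioo ⟨?_, ?_⟩
  · linarith [Real.pi_pos]
  · linarith [Real.pi_pos]

theorem csq_cone {w : ℂ} (hw : 0 < w.re) : ‖csq w‖ ≤ 2 * (csq w).re := by
  have h1 := csq_re_pos hw
  have h2 : (csq w).re ^ 2 - (csq w).im ^ 2 = w.re := by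
    have := congrArg Complex.re (csq_sq w)
    rw [pow_two, Complex.mul_re] at this
    nlinarith
  have h3 : ‖csq w‖ ^ 2 = (csq w).re ^ 2 + (csq w).im ^ 2 := by
    rw [Complex.sq_norm, Complex.normSq_apply]
    ring
  refine abs_le_of_sq_le_sq' ?_ (by linarith) |>.2
  nlinarith

theorem csq_lip {u v : ℂ} {c : ℝ} (hu : 0 < u.re) (hv : 0 < v.re) (hc : 0 < c)
    (hcu : c ≤ ‖csq u‖) : ‖csq u - csq v‖ ≤ 2 / c * ‖u - v‖ := by
  have h1 : (csq u - csq v) * (csq u + csq v) = u - v := by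
    have e1 := csq_sq u
    have e2 := csq_sq v
    linear_combination e1 - e2
  have h2 : c / 2 ≤ ‖csq u + csq v‖ := by
    have h3 := Complex.re_le_norm (csq u + csq v)
    rw [Complex.add_re] at h3
    have h4 := csq_cone hu
    have h5 := csq_re_pos hv
    linarith
  have h3 : ‖csq u - csq v‖ * ‖csq u + csq v‖ = ‖u - v‖ := by rw [← norm_mul, h1]
  rw [← h3]
  have h4 : 0 ≤ ‖csq u - csq v‖ := norm_nonneg _
  calc ‖csq u - csq v‖ = 2 / c * (‖csq u - csq v‖ * (c / 2)) := by field_simp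
    _ ≤ 2 / c * (‖csq u - csq v‖ * ‖csq u + csq v‖) := by
        apply mul_le_mul_of_nonneg_left _ (by positivity)
        exact mul_le_mul_of_nonneg_left h2 h4

theorem csq_conj {w : ℂ} (hw : w.arg ≠ Real.pi) : conj (csq (conj w)) = csq w := by
  unfold csq
  have h := Complex.conj_cpow w (1 / 2) hw
  have h2 : (starRingEnd ℂ) (1 / 2 : ℂ) = 1 / 2 := by
    rw [show (1 / 2 : ℂ) = (((1 / 2 : ℝ)) : ℂ) by push_cast; ring, Complex.conj_ofReal]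
  rw [h, Complex.conj_conj, h2]

theorem csq_neg {w : ℂ} (h : 0 ≤ w.im) (h' : w.re < 0) : csq w = Complex.I * csq (-w) := by
  have hw : w ≠ 0 := by
    intro h1
    rw [h1] at h'
    simp at h'
  have h1 : Complex.arg (-w) = Complex.arg w - Real.pi := by
    rw [Complex.arg_neg_eq_arg_sub_pi_iff]
    rcases h.lt_or_eq with h2 | h2
    · exact Or.inl h2
    · exact Or.inr ⟨h2.symm, h'⟩
  have h2 : Complex.log w = Complex.log (-w) + Real.pi * Complex.I := by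
    apply Complex.ext
    · simp [Complex.log_re]
    · simp only [Complex.log_im, Complex.add_im, h1]
      simp
  rw [csq_exp hw, csq_exp (neg_ne_zero.2 hw), h2, add_mul, Complex.exp_add, mul_comm]
  congr 1
  rw [show (Real.pi : ℂ) * Complex.I * (1 / 2) = (Real.pi : ℂ) / 2 * Complex.I by ring,
    Complex.exp_pi_div_two_mul_I]

theorem arg_ne_pi {w : ℂ} (hw : 0 < w.re) : w.arg ≠ Real.pi := by
  intro h
  rw [Complex.arg_eq_pi_iff] at h
  linarith [h.1]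

/-! ### The squares of the roots -/

/-- the square of the root -/
def wz (β : ℝ) (m : ℤ) (θ : ℂ) (lam : ℝ) : ℂ := ((β : ℂ) * ((m : ℂ) + θ)) ^ 2 - (lam : ℂ)

/-- its value at the centre -/
def w0 (β θ₀ lam₀ : ℝ) (m : ℤ) : ℝ := (β * ((m : ℝ) + θ₀)) ^ 2 - lam₀

theorem w0_far (β θ₀ lam₀ : ℝ) (hβ : 0 < β) (h0 : 0 < θ₀) (h1 : θ₀ < 1) :
    ∃ M : ℕ, ∀ m : ℤ, (M : ℝ) ≤ |(m : ℝ)| →
      β ^ 2 / 8 * (1 + |(m : ℝ)|) ^ 2 ≤ |w0 β θ₀ lam₀ m| := by
  obtain ⟨M, hM⟩ := exists_nat_ge (3 + 8 * |lam₀| / β ^ 2)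
  refine ⟨M, fun m hm => ?_⟩
  have hq : 0 ≤ 8 * |lam₀| / β ^ 2 := by positivity
  have h3 : 3 ≤ |(m : ℝ)| := by linarith
  have h4 : 8 * |lam₀| / β ^ 2 ≤ |(m : ℝ)| := by linarith
  have h5 : (|(m : ℝ)| - 1) ^ 2 ≤ ((m : ℝ) + θ₀) ^ 2 := by
    rw [← sq_abs ((m : ℝ) + θ₀)]
    apply pow_le_pow_left₀ (by linarith)
    have := abs_sub_abs_le_abs_sub (m : ℝ) (-θ₀)
    rw [abs_neg, abs_of_pos h0, sub_neg_eq_add] at this
    linarith
  have h6 : (1 + |(m : ℝ)|) ^ 2 / 4 ≤ (|(m : ℝ)| - 1) ^ 2 := by nlinarith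
  have h7 : |lam₀| ≤ β ^ 2 / 8 * (1 + |(m : ℝ)|) ^ 2 := by
    rw [div_le_iff₀ (by positivity)] at h4
    have h8 : |(m : ℝ)| ≤ (1 + |(m : ℝ)|) ^ 2 := by nlinarith
    have h9 : |(m : ℝ)| * β ^ 2 ≤ (1 + |(m : ℝ)|) ^ 2 * β ^ 2 :=
      mul_le_mul_of_nonneg_right h8 (by positivity)
    nlinarith
  have h8 : β ^ 2 * ((1 + |(m : ℝ)|) ^ 2 / 4) ≤ β ^ 2 * ((m : ℝ) + θ₀) ^ 2 :=
    mul_le_mul_of_nonneg_left (h6.trans h5) (by positivity)
  have h9 : β ^ 2 / 8 * (1 + |(m : ℝ)|) ^ 2 ≤ w0 β θ₀ lam₀ m := by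
    unfold w0
    have := le_abs_self lam₀
    rw [mul_pow]
    nlinarith
  exact h9.trans (le_abs_self _)

theorem w0_lower (β θ₀ lam₀ : ℝ) (hβ : 0 < β) (h0 : 0 < θ₀) (h1 : θ₀ < 1)
    (hT : lam₀ ∉ Thr β θ₀) :
    ∃ c : ℝ, 0 < c ∧ ∀ m : ℤ, c * (1 + |(m : ℝ)|) ^ 2 ≤ |w0 β θ₀ lam₀ m| := by
  obtain ⟨M, hM⟩ := w0_far β θ₀ lam₀ hβ h0 h1
  have hne : ∀ m : ℤ, 0 < |w0 β θ₀ lam₀ m| := by
    intro m
    rw [abs_pos]
    intro h
    apply hT
    refine ⟨m, ?_⟩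
    unfold w0 at h
    linarith
  obtain ⟨m₀, -, hm₀⟩ := Finset.exists_min_image (Finset.Icc (-(M : ℤ)) M)
    (fun m : ℤ => |w0 β θ₀ lam₀ m| / (1 + |(m : ℝ)|) ^ 2) ⟨0, by simp⟩
  refine ⟨min (β ^ 2 / 8) (|w0 β θ₀ lam₀ m₀| / (1 + |(m₀ : ℝ)|) ^ 2),
    lt_min (by positivity) (div_pos (hne m₀) (by positivity)), fun m => ?_⟩
  by_cases h : (M : ℝ) ≤ |(m : ℝ)|
  · refine le_trans ?_ (hM m h)
    exact mul_le_mul_of_nonneg_right (min_le_left _ _) (by positivity)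
  · have h2 : m ∈ Finset.Icc (-(M : ℤ)) M := by
      rw [Finset.mem_Icc]
      have h3 : |m| < (M : ℤ) := by
        have : ((|m| : ℤ) : ℝ) < ((M : ℤ) : ℝ) := by
          push_cast
          exact not_le.1 h
        exact_mod_cast this
      rw [abs_lt] at h3
      exact ⟨h3.1.le, h3.2.le⟩
    have h3 := hm₀ m h2
    rw [le_div_iff₀ (by positivity)] at h3
    refine le_trans ?_ h3
    exact mul_le_mul_of_nonneg_right (min_le_right _ _) (by positivity)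

theorem wz_near (β θ₀ lam₀ : ℝ) (h0 : 0 < θ₀) (h1 : θ₀ < 1) {r δ : ℝ}
    (hr : r ≤ 1) {θ : ℂ} (hθ : ‖θ - θ₀‖ < r) {lam : ℝ} (hlam : |lam - lam₀| < δ) (m : ℤ) :
    ‖wz β m θ lam - (w0 β θ₀ lam₀ m : ℂ)‖ ≤ (3 * β ^ 2 * r + δ) * (1 + |(m : ℝ)|) ^ 2 := by
  have h2 : wz β m θ lam - (w0 β θ₀ lam₀ m : ℂ) =
      (β : ℂ) ^ 2 * ((θ - θ₀) * (2 * m + θ + θ₀)) - ((lam - lam₀ : ℝ) : ℂ) := by
    unfold wz w0
    push_cast
    ring
  have hθn : ‖θ‖ ≤ 2 := by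
    have h3 : ‖θ‖ ≤ ‖θ - θ₀‖ + ‖(θ₀ : ℂ)‖ := by
      have := norm_add_le (θ - θ₀) (θ₀ : ℂ)
      rwa [sub_add_cancel] at this
    rw [Complex.norm_real, Real.norm_eq_abs, abs_of_pos h0] at h3
    linarith
  have h4 : ‖(2 * m + θ + θ₀ : ℂ)‖ ≤ 3 * (1 + |(m : ℝ)|) := by
    have h5 : ‖(2 * m + θ + θ₀ : ℂ)‖ ≤ ‖(2 * m : ℂ)‖ + ‖θ‖ + ‖(θ₀ : ℂ)‖ := norm_add₃_le
    have h6 : ‖(2 * m : ℂ)‖ = 2 * |(m : ℝ)| := by
      rw [norm_mul, Complex.norm_intCast]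
      norm_num
    rw [h6, Complex.norm_real, Real.norm_eq_abs, abs_of_pos h0] at h5
    have := abs_nonneg (m : ℝ)
    linarith
  have hm1 : 1 ≤ 1 + |(m : ℝ)| := by
    have := abs_nonneg (m : ℝ)
    linarith
  have hrp : 0 < r := lt_of_le_of_lt (norm_nonneg _) hθ
  have hδp : 0 < δ := lt_of_le_of_lt (abs_nonneg _) hlam
  calc ‖wz β m θ lam - (w0 β θ₀ lam₀ m : ℂ)‖
      ≤ ‖(β : ℂ) ^ 2 * ((θ - θ₀) * (2 * m + θ + θ₀))‖ + ‖((lam - lam₀ : ℝ) : ℂ)‖ := by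
        rw [h2]
        exact norm_sub_le _ _
    _ = β ^ 2 * (‖θ - θ₀‖ * ‖(2 * m + θ + θ₀ : ℂ)‖) + |lam - lam₀| := by
        rw [norm_mul, norm_mul, norm_pow, Complex.norm_real, Real.norm_eq_abs, sq_abs,
          Complex.norm_real, Real.norm_eq_abs]
    _ ≤ β ^ 2 * (r * (3 * (1 + |(m : ℝ)|))) + δ := by
        refine add_le_add (mul_le_mul_of_nonneg_left ?_ (by positivity)) hlam.le
        exact mul_le_mul hθ.le h4 (norm_nonneg _) hrp.le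
    _ ≤ (3 * β ^ 2 * r + δ) * (1 + |(m : ℝ)|) ^ 2 := by
        have h7 : 1 + |(m : ℝ)| ≤ (1 + |(m : ℝ)|) ^ 2 := by nlinarith
        have h8 : 0 ≤ 3 * β ^ 2 * r := by positivity
        have h9 : 3 * β ^ 2 * r * (1 + |(m : ℝ)|) ≤ 3 * β ^ 2 * r * (1 + |(m : ℝ)|) ^ 2 :=
          mul_le_mul_of_nonneg_left h7 h8
        have h10 : δ * 1 ≤ δ * (1 + |(m : ℝ)|) ^ 2 :=
          mul_le_mul_of_nonneg_left (hm1.trans h7) hδp.le
        nlinarith

/-! ### The continued roots -/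

open Classical in
/-- the continued root -/
def kc (β θ₀ lam₀ : ℝ) (m : ℤ) (θ : ℂ) (lam : ℝ) : ℂ :=
  if 0 < w0 β θ₀ lam₀ m then csq (wz β m θ lam)
  else if 0 ≤ m then Complex.I * csq (-wz β m θ lam) else -Complex.I * csq (-wz β m θ lam)

/-- the square with the sign -/
def us (β θ₀ lam₀ : ℝ) (m : ℤ) (θ : ℂ) (lam : ℝ) : ℂ :=
  if 0 < w0 β θ₀ lam₀ m then wz β m θ lam else -wz β m θ lam

/-- the factor -/
def sg (β θ₀ lam₀ : ℝ) (m : ℤ) : ℂ :=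
  if 0 < w0 β θ₀ lam₀ m then 1 else if 0 ≤ m then Complex.I else -Complex.I

theorem kc_eq (β θ₀ lam₀ : ℝ) (m : ℤ) (θ : ℂ) (lam : ℝ) :
    kc β θ₀ lam₀ m θ lam = sg β θ₀ lam₀ m * csq (us β θ₀ lam₀ m θ lam) := by
  unfold kc sg us
  split_ifs <;> simp

theorem sg_norm (β θ₀ lam₀ : ℝ) (m : ℤ) : ‖sg β θ₀ lam₀ m‖ = 1 := by
  unfold sg
  split_ifs <;> simp

theorem us_near {β θ₀ lam₀ : ℝ} {m : ℤ} {θ : ℂ} {lam : ℝ}
    (h : ‖wz β m θ lam - (w0 β θ₀ lam₀ m : ℂ)‖ ≤ |w0 β θ₀ lam₀ m| / 2) :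
    ‖us β θ₀ lam₀ m θ lam - ((|w0 β θ₀ lam₀ m| : ℝ) : ℂ)‖ ≤ |w0 β θ₀ lam₀ m| / 2 := by
  unfold us
  split_ifs with h1
  · rw [abs_of_pos h1] at h ⊢
    exact h
  · rw [abs_of_nonpos (not_lt.1 h1)] at h ⊢
    rw [← norm_neg]
    refine le_trans (le_of_eq ?_) h
    congr 1
    push_cast
    ring

theorem us_re {β θ₀ lam₀ : ℝ} {m : ℤ} {θ : ℂ} {lam : ℝ}
    (h : ‖wz β m θ lam - (w0 β θ₀ lam₀ m : ℂ)‖ ≤ |w0 β θ₀ lam₀ m| / 2) :
    |w0 β θ₀ lam₀ m| / 2 ≤ (us β θ₀ lam₀ m θ lam).re := by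
  have h1 := (Complex.abs_re_le_norm _).trans (us_near h)
  rw [Complex.sub_re, Complex.ofReal_re] at h1
  rw [abs_le] at h1
  linarith [h1.1]

theorem us_norm_le {β θ₀ lam₀ : ℝ} {m : ℤ} {θ : ℂ} {lam : ℝ}
    (h : ‖wz β m θ lam - (w0 β θ₀ lam₀ m : ℂ)‖ ≤ |w0 β θ₀ lam₀ m| / 2) :
    ‖us β θ₀ lam₀ m θ lam‖ ≤ 3 / 2 * |w0 β θ₀ lam₀ m| := by
  have h1 := us_near h
  have h2 := norm_add_le (us β θ₀ lam₀ m θ lam - ((|w0 β θ₀ lam₀ m| : ℝ) : ℂ))
    ((|w0 β θ₀ lam₀ m| : ℝ) : ℂ)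
  rw [sub_add_cancel, Complex.norm_real, Real.norm_eq_abs, abs_abs] at h2
  linarith

theorem kc_norm (β θ₀ lam₀ : ℝ) (m : ℤ) (θ : ℂ) (lam : ℝ) :
    ‖kc β θ₀ lam₀ m θ lam‖ ^ 2 = ‖us β θ₀ lam₀ m θ lam‖ := by
  rw [kc_eq, norm_mul, sg_norm, one_mul, csq_norm_sq]

theorem le_one_add_sq (x : ℝ) : x ≤ 1 + x ^ 2 := by nlinarith [sq_nonneg (x - 1)]

theorem kc_near {β θ₀ lam₀ : ℝ} (hβ : 0 < β) (h0 : 0 < θ₀) (h1 : θ₀ < 1) {m : ℤ} {θ : ℂ}
    {lam : ℝ} (hθ : ‖θ‖ ≤ 2) (hlam : |lam| ≤ |lam₀| + 1)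
    (hne : 0 < |w0 β θ₀ lam₀ m|)
    (h : ‖wz β m θ lam - (w0 β θ₀ lam₀ m : ℂ)‖ ≤ |w0 β θ₀ lam₀ m| / 2) :
    ‖kc β θ₀ lam₀ m θ lam - ((β * |(m : ℝ)| : ℝ) : ℂ)‖ ≤
      (8 * β ^ 2 + (|lam₀| + 1)) / β + (1 + 4 * β ^ 2 + (|lam₀| + 1)) + (2 + 3 * |lam₀| + β) := by
  have hl : 0 ≤ |lam₀| := abs_nonneg _
  have e1 : 0 ≤ (8 * β ^ 2 + (|lam₀| + 1)) / β := by positivity
  have e2 : 0 ≤ 1 + 4 * β ^ 2 + (|lam₀| + 1) := by positivity
  have e3 : 0 ≤ 2 + 3 * |lam₀| + β := by positivity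
  have hnorm : ‖((β * |(m : ℝ)| : ℝ) : ℂ)‖ = β * |(m : ℝ)| := by
    rw [Complex.norm_real, Real.norm_eq_abs, abs_of_nonneg (by positivity)]
  by_cases hw : 0 < w0 β θ₀ lam₀ m
  · have hk : kc β θ₀ lam₀ m θ lam = csq (wz β m θ lam) := by
      unfold kc
      rw [if_pos hw]
    have hus : us β θ₀ lam₀ m θ lam = wz β m θ lam := by
      unfold us
      rw [if_pos hw]
    have hre : 0 < (wz β m θ lam).re := by
      have := us_re h
      rw [hus] at this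
      linarith
    have hpos := csq_re_pos hre
    have hdiff : ‖wz β m θ lam - (((β * |(m : ℝ)|) ^ 2 : ℝ) : ℂ)‖ ≤
        β ^ 2 * (4 * |(m : ℝ)| + 4) + (|lam₀| + 1) := by
      have h3 : wz β m θ lam - (((β * |(m : ℝ)|) ^ 2 : ℝ) : ℂ) =
          (β : ℂ) ^ 2 * (2 * m * θ + θ * θ) - (lam : ℂ) := by
        unfold wz
        rw [mul_pow β |(m : ℝ)|, sq_abs]
        push_cast
        ring
      rw [h3]
      refine (norm_sub_le _ _).trans ?_
      rw [Complex.norm_real, Real.norm_eq_abs, norm_mul, norm_pow, Complex.norm_real,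
        Real.norm_eq_abs, sq_abs]
      refine add_le_add (mul_le_mul_of_nonneg_left ?_ (by positivity)) hlam
      refine (norm_add_le _ _).trans ?_
      rw [norm_mul, norm_mul, norm_mul, Complex.norm_intCast]
      have h4 : ‖(2 : ℂ)‖ = 2 := by norm_num
      rw [h4]
      have h5 : 0 ≤ |(m : ℝ)| := abs_nonneg _
      have h6 : 0 ≤ ‖θ‖ := norm_nonneg _
      have h7 : 2 * |(m : ℝ)| * ‖θ‖ ≤ 2 * |(m : ℝ)| * 2 :=
        mul_le_mul_of_nonneg_left hθ (by positivity)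
      have h8 : ‖θ‖ * ‖θ‖ ≤ 2 * 2 := mul_le_mul hθ hθ h6 (by norm_num)
      linarith
    by_cases hm : m = 0
    · subst hm
      have h5 : ‖kc β θ₀ lam₀ 0 θ lam‖ ^ 2 ≤ 4 * β ^ 2 + (|lam₀| + 1) := by
        rw [kc_norm, hus]
        have : ‖wz β 0 θ lam‖ ≤ β ^ 2 * 4 + (|lam₀| + 1) := by simpa using hdiff
        linarith
      have h6 := le_one_add_sq ‖kc β θ₀ lam₀ 0 θ lam‖
      simp only [Int.cast_zero, abs_zero, mul_zero, Complex.ofReal_zero, sub_zero]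
      linarith
    · have hm1 : 1 ≤ |(m : ℝ)| := by
        have : (1 : ℤ) ≤ |m| := Int.one_le_abs hm
        exact_mod_cast this
      have h5 : (kc β θ₀ lam₀ m θ lam - ((β * |(m : ℝ)| : ℝ) : ℂ)) *
          (kc β θ₀ lam₀ m θ lam + ((β * |(m : ℝ)| : ℝ) : ℂ)) =
          wz β m θ lam - (((β * |(m : ℝ)|) ^ 2 : ℝ) : ℂ) := by
        rw [hk]
        have := csq_sq (wz β m θ lam)
        push_cast
        linear_combination this
      have h6 : β * |(m : ℝ)| ≤ ‖kc β θ₀ lam₀ m θ lam + ((β * |(m : ℝ)| : ℝ) : ℂ)‖ := by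
        refine le_trans ?_ (Complex.re_le_norm _)
        rw [Complex.add_re, Complex.ofReal_re, hk]
        linarith
      have h7 : ‖kc β θ₀ lam₀ m θ lam - ((β * |(m : ℝ)| : ℝ) : ℂ)‖ * (β * |(m : ℝ)|) ≤
          β ^ 2 * (4 * |(m : ℝ)| + 4) + (|lam₀| + 1) := by
        refine le_trans ?_ hdiff
        rw [← h5, norm_mul]
        exact mul_le_mul_of_nonneg_left h6 (norm_nonneg _)
      have h8 : ‖kc β θ₀ lam₀ m θ lam - ((β * |(m : ℝ)| : ℝ) : ℂ)‖ ≤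
          (8 * β ^ 2 + (|lam₀| + 1)) / β := by
        rw [le_div_iff₀ hβ]
        have hmp : 0 < |(m : ℝ)| := by linarith
        have h9 : β ^ 2 * (4 * |(m : ℝ)| + 4) + (|lam₀| + 1) ≤
            (8 * β ^ 2 + (|lam₀| + 1)) * |(m : ℝ)| := by
          have g1 : (|lam₀| + 1) * 1 ≤ (|lam₀| + 1) * |(m : ℝ)| :=
            mul_le_mul_of_nonneg_left hm1 (by positivity)
          have g2 : β ^ 2 * 4 * 1 ≤ β ^ 2 * 4 * |(m : ℝ)| :=
            mul_le_mul_of_nonneg_left hm1 (by positivity)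
          linarith
        have h10 := h7.trans h9
        rw [← mul_assoc] at h10
        exact le_of_mul_le_mul_right h10 hmp
      linarith
  · have hle := not_lt.1 hw
    have h3 : |w0 β θ₀ lam₀ m| ≤ |lam₀| := by
      rw [abs_of_nonpos hle]
      have g1 := le_abs_self lam₀
      have g2 : 0 ≤ (β * ((m : ℝ) + θ₀)) ^ 2 := sq_nonneg _
      unfold w0
      linarith
    have h4 := us_norm_le h
    have h5 := le_one_add_sq ‖kc β θ₀ lam₀ m θ lam‖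
    rw [kc_norm] at h5
    have h6 : β * |(m : ℝ)| ≤ 1 + |lam₀| + β := by
      have g1 := le_one_add_sq (β * |(m : ℝ) + θ₀|)
      have g2 : (β * |(m : ℝ) + θ₀|) ^ 2 ≤ |lam₀| := by
        rw [mul_pow, sq_abs, ← mul_pow]
        have g3 := le_abs_self lam₀
        unfold w0 at hle
        linarith
      have g4 : |(m : ℝ)| ≤ |(m : ℝ) + θ₀| + 1 := by
        have := abs_sub_abs_le_abs_sub (m : ℝ) (-θ₀)
        rw [abs_neg, abs_of_pos h0, sub_neg_eq_add] at this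
        linarith
      have g5 := mul_le_mul_of_nonneg_left g4 hβ.le
      linarith
    have h7 := norm_sub_le (kc β θ₀ lam₀ m θ lam) ((β * |(m : ℝ)| : ℝ) : ℂ)
    rw [hnorm] at h7
    linarith

theorem wz_im (β : ℝ) (m : ℤ) (θ : ℂ) (lam : ℝ) :
    (wz β m θ lam).im = 2 * β ^ 2 * (((m : ℝ) + θ.re) * θ.im) := by
  unfold wz
  simp only [pow_two, Complex.sub_im, Complex.mul_im, Complex.mul_re, Complex.add_im,
    Complex.add_re, Complex.ofReal_re, Complex.ofReal_im, Complex.intCast_re, Complex.intCast_im]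
  ring

theorem kc_agree {β θ₀ lam₀ : ℝ} {m : ℤ} {θ : ℂ} {lam : ℝ}
    (hne : 0 < |w0 β θ₀ lam₀ m|)
    (h : ‖wz β m θ lam - (w0 β θ₀ lam₀ m : ℂ)‖ ≤ |w0 β θ₀ lam₀ m| / 2) (h0 : 0 < θ.re)
    (h1 : θ.re < 1) (h2 : 0 ≤ θ.im) : kc β θ₀ lam₀ m θ lam = kmi β θ lam m := by
  have hus := us_re h
  have hk : kmi β θ lam m = if 0 ≤ m then csq (wz β m θ lam)
      else conj (csq (conj (wz β m θ lam))) := rfl
  rw [hk]
  unfold kc
  by_cases hw : 0 < w0 β θ₀ lam₀ m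
  · rw [if_pos hw]
    unfold us at hus
    rw [if_pos hw] at hus
    split_ifs with hm
    · rfl
    · exact (csq_conj (arg_ne_pi (by linarith))).symm
  · rw [if_neg hw]
    unfold us at hus
    rw [if_neg hw, Complex.neg_re] at hus
    have him := wz_im β m θ lam
    have hβ2 : 0 ≤ 2 * β ^ 2 := by positivity
    split_ifs with hm
    · refine (csq_neg ?_ (by linarith)).symm
      rw [him]
      have hm' : (0 : ℝ) ≤ (m : ℝ) := by exact_mod_cast hm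
      exact mul_nonneg hβ2 (mul_nonneg (by linarith) h2)
    · have hm' : (m : ℝ) ≤ -1 := by
        have : m ≤ -1 := by omega
        exact_mod_cast this
      have h3 : 0 ≤ (conj (wz β m θ lam)).im := by
        rw [Complex.conj_im, him, neg_nonneg]
        exact mul_nonpos_of_nonneg_of_nonpos hβ2
          (mul_nonpos_of_nonpos_of_nonneg (by linarith) h2)
      rw [csq_neg h3 (by rw [Complex.conj_re]; linarith), map_mul, Complex.conj_I, ← map_neg,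
        csq_conj (arg_ne_pi (by rw [Complex.neg_re]; linarith))]

theorem t_KLOC : S_KLOC := by
  intro β θ₀ lam₀ hβ h0 h1 hT
  obtain ⟨c, hc, hcl⟩ := w0_lower β θ₀ lam₀ hβ h0 h1 hT
  set r : ℝ := min (min θ₀ (1 - θ₀)) (c / (12 * β ^ 2)) with hr
  set δ : ℝ := min 1 (c / 4) with hδ
  have hrp : 0 < r := lt_min (lt_min h0 (by linarith)) (by positivity)
  have hδp : 0 < δ := lt_min one_pos (by positivity)
  have hr0 : r ≤ θ₀ := (min_le_left _ _).trans (min_le_left _ _)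
  have hr1 : r ≤ 1 - θ₀ := (min_le_left _ _).trans (min_le_right _ _)
  have hrc : r ≤ c / (12 * β ^ 2) := min_le_right _ _
  have hsmall : 3 * β ^ 2 * r + δ ≤ c / 2 := by
    rw [le_div_iff₀ (by positivity)] at hrc
    have := min_le_right 1 (c / 4)
    nlinarith
  have hm1 : ∀ m : ℤ, 1 ≤ (1 + |(m : ℝ)|) ^ 2 := fun m => by
    have := abs_nonneg (m : ℝ)
    nlinarith
  have hne : ∀ m : ℤ, c ≤ |w0 β θ₀ lam₀ m| := fun m => by
    have h3 := hcl m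
    have h4 : c * 1 ≤ c * (1 + |(m : ℝ)|) ^ 2 := mul_le_mul_of_nonneg_left (hm1 m) hc.le
    linarith
  have hnear : ∀ θ : ℂ, ‖θ - θ₀‖ < r → ∀ lam : ℝ, |lam - lam₀| < δ → ∀ m : ℤ,
      ‖wz β m θ lam - (w0 β θ₀ lam₀ m : ℂ)‖ ≤ |w0 β θ₀ lam₀ m| / 2 := by
    intro θ hθ lam hlam m
    refine (wz_near β θ₀ lam₀ h0 h1 (by linarith) hθ hlam m).trans ?_
    have h3 := hcl m
    have h4 : (3 * β ^ 2 * r + δ) * (1 + |(m : ℝ)|) ^ 2 ≤ c / 2 * (1 + |(m : ℝ)|) ^ 2 :=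
      mul_le_mul_of_nonneg_right hsmall (by positivity)
    linarith
  set c₀ : ℝ := √(c / 2) with hc₀
  have hc₀p : 0 < c₀ := Real.sqrt_pos.2 (by positivity)
  have hlow : ∀ θ : ℂ, ‖θ - θ₀‖ < r → ∀ lam : ℝ, |lam - lam₀| < δ → ∀ m : ℤ,
      c₀ ≤ ‖csq (us β θ₀ lam₀ m θ lam)‖ := by
    intro θ hθ lam hlam m
    apply Real.sqrt_le_iff.2 ⟨norm_nonneg _, ?_⟩
    rw [csq_norm_sq]
    have h3 := us_re (hnear θ hθ lam hlam m)
    have h4 := Complex.re_le_norm (us β θ₀ lam₀ m θ lam)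
    have h5 := hne m
    linarith
  have hre : ∀ θ : ℂ, ‖θ - θ₀‖ < r → ∀ lam : ℝ, |lam - lam₀| < δ → ∀ m : ℤ,
      0 < (us β θ₀ lam₀ m θ lam).re := by
    intro θ hθ lam hlam m
    have h3 := us_re (hnear θ hθ lam hlam m)
    have h5 := hne m
    linarith
  have hstrip : ∀ θ : ℂ, ‖θ - θ₀‖ < r → 0 < θ.re ∧ θ.re < 1 := by
    intro θ hθ
    have h3 := (Complex.abs_re_le_norm (θ - θ₀)).trans_lt hθ
    rw [Complex.sub_re, Complex.ofReal_re, abs_lt] at h3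
    constructor <;> linarith [h3.1, h3.2]
  refine ⟨r, δ, c₀, (8 * β ^ 2 + (|lam₀| + 1)) / β + (1 + 4 * β ^ 2 + (|lam₀| + 1)) +
    (2 + 3 * |lam₀| + β), 2 / c₀, kc β θ₀ lam₀, hrp, hδp, hc₀p, by positivity, ?_, ?_, ?_, ?_⟩
  · intro θ hθ
    rw [Metric.mem_ball, dist_eq_norm] at hθ
    exact hstrip θ hθ
  · rintro θ hθ lam hlam ⟨m, hm⟩
    have h3 := hnear (θ : ℂ) (by
      rw [← Complex.ofReal_sub, Complex.norm_real, Real.norm_eq_abs]
      exact hθ) lam hlam m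
    have h4 : wz β m θ lam = 0 := by
      unfold wz
      rw [hm]
      push_cast
      ring
    rw [h4, zero_sub, norm_neg, Complex.norm_real, Real.norm_eq_abs] at h3
    have h5 := hne m
    linarith
  · intro lam hlam m θ hθ
    rw [Metric.mem_ball, dist_eq_norm] at hθ
    apply DifferentiableAt.differentiableWithinAt
    have h3 : (fun θ => kc β θ₀ lam₀ m θ lam) =
        fun θ => sg β θ₀ lam₀ m * (us β θ₀ lam₀ m θ lam) ^ (1 / 2 : ℂ) := by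
      funext θ
      exact kc_eq β θ₀ lam₀ m θ lam
    rw [h3]
    have h4 : DifferentiableAt ℂ (fun θ => us β θ₀ lam₀ m θ lam) θ := by
      unfold us wz
      split_ifs <;> fun_prop
    exact (h4.cpow (differentiableAt_const _) (Or.inl (hre θ hθ lam hlam m))).const_mul _
  · intro θ hθ lam hlam
    rw [Metric.mem_ball, dist_eq_norm] at hθ
    refine ⟨⟨fun m => ?_, fun m => ?_⟩, fun lam' hlam' m => ?_, fun him m => ?_⟩
    · rw [kc_eq, norm_mul, sg_norm, one_mul]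
      exact hlow θ hθ lam hlam m
    · refine kc_near hβ h0 h1 ?_ ?_ (lt_of_lt_of_le hc (hne m)) (hnear θ hθ lam hlam m)
      · have h3 : ‖θ‖ ≤ ‖θ - θ₀‖ + ‖(θ₀ : ℂ)‖ := by
          have := norm_add_le (θ - θ₀) (θ₀ : ℂ)
          rwa [sub_add_cancel] at this
        rw [Complex.norm_real, Real.norm_eq_abs, abs_of_pos h0] at h3
        linarith
      · have h3 : |lam| ≤ |lam - lam₀| + |lam₀| := by
          have := abs_add_le (lam - lam₀) lam₀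
          rwa [sub_add_cancel] at this
        have h4 : δ ≤ 1 := min_le_left _ _
        linarith
    · have h3 : us β θ₀ lam₀ m θ lam - us β θ₀ lam₀ m θ lam' =
          if 0 < w0 β θ₀ lam₀ m then -((lam - lam' : ℝ) : ℂ) else ((lam - lam' : ℝ) : ℂ) := by
        unfold us wz
        split_ifs <;> push_cast <;> ring
      have h4 : ‖us β θ₀ lam₀ m θ lam - us β θ₀ lam₀ m θ lam'‖ = |lam - lam'| := by
        rw [h3]
        split_ifs
        · rw [norm_neg, Complex.norm_real, Real.norm_eq_abs]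
        · rw [Complex.norm_real, Real.norm_eq_abs]
      rw [kc_eq, kc_eq, ← mul_sub, norm_mul, sg_norm, one_mul, ← h4]
      exact csq_lip (hre θ hθ lam hlam m) (hre θ hθ lam' hlam' m) hc₀p (hlow θ hθ lam hlam m)
    · exact kc_agree (lt_of_lt_of_le hc (hne m)) (hnear θ hθ lam hlam m) (hstrip θ hθ).1
        (hstrip θ hθ).2 him

end Pool.Agent.H106.LK
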